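import Pool.Agent.Helper43.GD.St

/-!
# Module KB of project GD (MP_b3ce06_al): the commutator `K` is central for `a`, `a_1`, `w`
-/

set_option autoImplicit false

namespace Pool.Agent.Helper39.GD

open Pool.Agent.Helper43.GD

theorem cj_conj {G : Type} [Group G] (a t : G) (i : ℤ) :
    t⁻¹ * cj a t i * t = cj a t (i + 1) := by
  unfold cj; group

theorem cj_zero {G : Type} [Group G] (a t : G) : cj a t 0 = a := by
  unfold cj; simp

theorem cj_rel {G : Type} [Group G] (a t : G) (h : a = cj a t 1 * cj a t 2) (i : ℤ) :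
    cj a t i = cj a t (i + 1) * cj a t (i + 2) := by
  have e : t ^ (-i) * (cj a t 1 * cj a t 2) * t ^ i = cj a t (i + 1) * cj a t (i + 2) := by
    unfold cj; group
  rw [← e, ← h]
  rfl

theorem hKB (hKA : StKA) : StKB := by
  intro G _ M a w t K hR hK
  obtain ⟨h1, h2, h3⟩ := hR
  have hka := hKA G M a w t ⟨h1, h2, h3⟩
  have htw : t * w = w * t⁻¹ := by
    rw [← h2]; group
  have hwt : w * t⁻¹ * w⁻¹ = t := by
    rw [← htw]; group
  have hwt' : w * t * w⁻¹ = t⁻¹ := by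
    calc w * t * w⁻¹ = (w * t⁻¹ * w⁻¹)⁻¹ := by group
      _ = t⁻¹ := by rw [hwt]
  have r1 : cj a t 1 = cj a t 2 * cj a t 3 := by
    have := cj_rel a t h3 1
    norm_num at this
    exact this
  have rM : cj a t M = cj a t (M + 1) * cj a t (M + 2) := cj_rel a t h3 M
  have s0 : t⁻¹ * a * t = cj a t 1 := by
    have := cj_conj a t 0
    rw [cj_zero] at this
    simpa using this
  have s1 : t⁻¹ * cj a t 1 * t = cj a t 2 := by simpa using cj_conj a t 1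
  have s2 : t⁻¹ * cj a t 2 * t = cj a t 3 := by
    have := cj_conj a t 2
    norm_num at this
    exact this
  have sm : t⁻¹ * cj a t (-1) * t = a := by
    have := cj_conj a t (-1)
    norm_num at this
    rw [this, cj_zero]
  have sM1 : t⁻¹ * cj a t (M - 1) * t = cj a t M := by
    have := cj_conj a t (M - 1)
    rw [this]; congr 1; ring
  have sM : t⁻¹ * cj a t M * t = cj a t (M + 1) := cj_conj a t M
  have sM2 : t⁻¹ * cj a t (M + 1) * t = cj a t (M + 2) := by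
    have := cj_conj a t (M + 1)
    rw [this]; congr 1
  generalize cj a t 1 = A1 at *
  generalize cj a t 2 = A2 at *
  generalize cj a t 3 = A3 at *
  generalize cj a t (-1) = Am at *
  generalize cj a t (M - 1) = AM' at *
  generalize cj a t (M + 1) = AM1 at *
  generalize cj a t (M + 2) = AM2 at *
  generalize cj a t M = AM at *
  clear hKA h2
  -- `K` changes sign
  have k0 : K = A2⁻¹ * A1⁻¹ * A2 * A1 := by
    rw [hK, h3]; group
  have k1 : t⁻¹ * K * t = K⁻¹ := by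
    calc t⁻¹ * K * t = (t⁻¹ * a * t)⁻¹ * (t⁻¹ * A1 * t)⁻¹ * (t⁻¹ * a * t) * (t⁻¹ * A1 * t) := by
          rw [hK]; group
      _ = A1⁻¹ * A2⁻¹ * A1 * A2 := by rw [s0, s1]
      _ = K⁻¹ := by rw [k0]; group
  have k1a : K = t * K⁻¹ * t⁻¹ := by rw [← k1]; group
  have k1' : t * K * t⁻¹ = K⁻¹ := by
    calc t * K * t⁻¹ = (t * K⁻¹ * t⁻¹)⁻¹ := by group
      _ = K⁻¹ := by rw [← k1a]
  have k2 : A2⁻¹ * A3⁻¹ * A2 * A3 = K := by
    calc A2⁻¹ * A3⁻¹ * A2 * A3 = t⁻¹ * (A1⁻¹ * A2⁻¹ * A1 * A2) * t := by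
          rw [← s1, ← s2, ← s1]; group
      _ = (t⁻¹ * (A2⁻¹ * A1⁻¹ * A2 * A1) * t)⁻¹ := by group
      _ = (t⁻¹ * K * t)⁻¹ := by rw [k0]
      _ = K := by rw [k1, inv_inv]
  -- the elements `P_j`
  have wPm : w * (Am * AM') * w⁻¹ = K := by rw [hka, k2]
  have tPm : t⁻¹ * (Am * AM') * t = a * AM := by
    calc t⁻¹ * (Am * AM') * t = (t⁻¹ * Am * t) * (t⁻¹ * AM' * t) := by group
      _ = a * AM := by rw [sm, sM1]
  have tP : t⁻¹ * (a * AM) * t = A1 * AM1 := by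
    calc t⁻¹ * (a * AM) * t = (t⁻¹ * a * t) * (t⁻¹ * AM * t) := by group
      _ = A1 * AM1 := by rw [s0, sM]
  have tP1 : t⁻¹ * (A1 * AM1) * t = A2 * AM2 := by
    calc t⁻¹ * (A1 * AM1) * t = (t⁻¹ * A1 * t) * (t⁻¹ * AM1 * t) := by group
      _ = A2 * AM2 := by rw [s1, sM2]
  have step : ∀ X : G, w * (t⁻¹ * X * t) * w⁻¹ = t * (w * X * w⁻¹) * t⁻¹ := by
    intro X
    calc w * (t⁻¹ * X * t) * w⁻¹ = (w * t⁻¹ * w⁻¹) * (w * X * w⁻¹) * (w * t * w⁻¹) := by group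
      _ = _ := by rw [hwt, hwt']
  have wP : w * (a * AM) * w⁻¹ = K⁻¹ := by rw [← tPm, step, wPm, k1']
  have wP1 : w * (A1 * AM1) * w⁻¹ = K := by rw [← tP, step, wP, ← k1a]
  have wP2 : w * (A2 * AM2) * w⁻¹ = K⁻¹ := by rw [← tP1, step, wP1, k1']
  have inj : ∀ X Y : G, w * X * w⁻¹ = w * Y * w⁻¹ → X = Y := by
    intro X Y h
    exact mul_left_cancel (mul_right_cancel h)
  have P1 : A1 * AM1 = (a * AM)⁻¹ := by
    apply inj
    rw [wP1]
    calc K = (K⁻¹)⁻¹ := (inv_inv K).symm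
      _ = (w * (a * AM) * w⁻¹)⁻¹ := by rw [wP]
      _ = _ := by group
  have Pm : Am * AM' = (a * AM)⁻¹ := by
    rw [← P1]
    apply inj
    rw [wPm, wP1]
  have P2 : A2 * AM2 = a * AM := by
    apply inj
    rw [wP2, wP]
  obtain ⟨P, hP⟩ : ∃ P, P = a * AM := ⟨_, rfl⟩
  rw [← hP] at P1 Pm P2 wP tPm tP
  have eM : AM = a⁻¹ * P := by rw [hP]; group
  have eM1 : AM1 = A1⁻¹ * P⁻¹ := by rw [← P1]; group
  have eM2 : AM2 = A2⁻¹ * P := by rw [← P2]; group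
  have e1 : a = A2 * P * A1 := by
    have : a⁻¹ * P = A1⁻¹ * P⁻¹ * (A2⁻¹ * P) := by rw [← eM, ← eM1, ← eM2]; exact rM
    have h4 : a⁻¹ = A1⁻¹ * P⁻¹ * A2⁻¹ := by
      calc a⁻¹ = (a⁻¹ * P) * P⁻¹ := by group
        _ = (A1⁻¹ * P⁻¹ * (A2⁻¹ * P)) * P⁻¹ := by rw [this]
        _ = _ := by group
    calc a = (a⁻¹)⁻¹ := (inv_inv a).symm
      _ = (A1⁻¹ * P⁻¹ * A2⁻¹)⁻¹ := by rw [h4]
      _ = _ := by group
  have e2 : P = A2⁻¹ * A1 * A2 * A1⁻¹ := by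
    have h4 : A1 * A2 = A2 * P * A1 := by rw [← h3, ← e1]
    calc P = A2⁻¹ * (A2 * P * A1) * A1⁻¹ := by group
      _ = A2⁻¹ * (A1 * A2) * A1⁻¹ := by rw [h4]
      _ = _ := by group
  have q1 : P = A1 * K⁻¹ * A1⁻¹ := by rw [e2, k0]; group
  have q2 : P = A2 * K⁻¹ * A2⁻¹ := by
    have h4 : P⁻¹ = A2 * K * A2⁻¹ := by
      calc P⁻¹ = t⁻¹ * P * t := by rw [← P1, tP]
        _ = (t⁻¹ * A1 * t) * (t⁻¹ * K * t)⁻¹ * (t⁻¹ * A1 * t)⁻¹ := by rw [q1]; group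
        _ = _ := by rw [s1, k1, inv_inv]
    calc P = (P⁻¹)⁻¹ := (inv_inv P).symm
      _ = (A2 * K * A2⁻¹)⁻¹ := by rw [h4]
      _ = _ := by group
  have q0 : P = a * K⁻¹ * a⁻¹ := by
    have h5 : t * A1 * t⁻¹ = a := by rw [← s0]; group
    have h4 : P⁻¹ = a * K * a⁻¹ := by
      calc P⁻¹ = t * P * t⁻¹ := by rw [← Pm, ← tPm]; group
        _ = (t * A1 * t⁻¹) * (t * K * t⁻¹)⁻¹ * (t * A1 * t⁻¹)⁻¹ := by rw [q1]; group
        _ = _ := by rw [h5, k1', inv_inv]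
    calc P = (P⁻¹)⁻¹ := (inv_inv P).symm
      _ = (a * K * a⁻¹)⁻¹ := by rw [h4]
      _ = _ := by group
  have hPK : P = K⁻¹ := by
    have h4 : P = A1 * P * A1⁻¹ := by
      calc P = a * K⁻¹ * a⁻¹ := q0
        _ = A1 * (A2 * K⁻¹ * A2⁻¹) * A1⁻¹ := by rw [h3]; group
        _ = A1 * P * A1⁻¹ := by rw [← q2]
    have h5 : A1 * P * A1⁻¹ = A1 * K⁻¹ * A1⁻¹ := by rw [← h4]; exact q1
    exact mul_left_cancel (mul_right_cancel h5)
  have com : ∀ X : G, K⁻¹ = X * K⁻¹ * X⁻¹ → X * K = K * X := by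
    intro X h
    have h4 : K = X * K * X⁻¹ := by
      calc K = (K⁻¹)⁻¹ := (inv_inv K).symm
        _ = (X * K⁻¹ * X⁻¹)⁻¹ := by rw [← h]
        _ = _ := by group
    calc X * K = (X * K * X⁻¹) * X := by group
      _ = K * X := by rw [← h4]
  refine ⟨com a (by rw [← q0]; exact hPK.symm), com w ?_, k1, ?_, com A1 (by rw [← q1]; exact hPK.symm)⟩
  · rw [hPK] at wP
    exact wP.symm
  · rw [← hP]; exact hPK

end Pool.Agent.Helper39.GD
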